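import Mathlib
import Pool.Agent.Helper635.Crit
import Pool.Agent.H889R2.Crit5
import Pool.Agent.H889R2.Crit5Fam

/-!
# MP_1f8788_co: linear minimum degree in 4-critical and 5-critical graphs

There are `c > 0` and infinitely many `k`-critical graphs `G` with `δ(G) ≥ c |V(G)|` if and only if
`k ≥ 5`.  The case `k = 4` answers Q1 (no) and the case `k = 5` answers Q2 (yes; the construction
gives `δ(G) ≥ |V(G)| / 18`).
-/

set_option autoImplicit false

namespace Pool.Agent.Results.MP_1f8788_co.LinearMinDegree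

/-- `G` is `k`-critical: `χ(G) = k`, and `χ(H) < k` for every proper subgraph `H` of `G`. -/
def IsCritical {V : Type} (k : ℕ) (G : SimpleGraph V) : Prop :=
  G.chromaticNumber = k ∧ ∀ H : G.Subgraph, H ≠ ⊤ → H.coe.chromaticNumber < k

/-- every vertex of the finite graph `G` (on the `n` vertices `Fin n`) has degree at least `c n` -/
def MinDegreeGe {n : ℕ} (G : SimpleGraph (Fin n)) (c : ℝ) : Prop :=
  ∀ v : Fin n, c * n ≤ (Nat.card (G.neighborSet v) : ℝ)

/-! ### criticality in terms of colourings with one conflict -/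

/-- a colouring with `k` colours whose only conflict is the edge `ab` -/
def OneConf {V : Type} (k : ℕ) (G : SimpleGraph V) (a b : V) : Prop :=
  ∃ c : V → Fin k, ∀ x y, G.Adj x y → c x = c y → (x = a ∧ y = b) ∨ (x = b ∧ y = a)

lemma oneConf_of_critical {V : Type} {k : ℕ} {G : SimpleGraph V} (h : IsCritical (k + 1) G)
    {a b : V} (hab : G.Adj a b) : OneConf k G a b := by
  have hne : (⊤ : G.Subgraph).deleteEdges {s(a, b)} ≠ ⊤ := by
    intro he
    have h1 : ((⊤ : G.Subgraph).deleteEdges {s(a, b)}).Adj a b := by rw [he]; exact hab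
    rw [SimpleGraph.Subgraph.deleteEdges_adj] at h1
    exact h1.2 rfl
  have h1 := h.2 _ hne
  have h2 : ((⊤ : G.Subgraph).deleteEdges {s(a, b)}).coe.Colorable k := by
    rw [← SimpleGraph.chromaticNumber_le_iff_colorable]
    push_cast at h1
    exact Order.le_of_lt_add_one h1
  obtain ⟨C⟩ := h2
  refine ⟨fun v => C ⟨v, Set.mem_univ v⟩, fun x y hxy hc => ?_⟩
  by_contra hcon
  have h3 : ((⊤ : G.Subgraph).deleteEdges {s(a, b)}).coe.Adj ⟨x, Set.mem_univ x⟩
      ⟨y, Set.mem_univ y⟩ := by
    rw [SimpleGraph.Subgraph.coe_adj, SimpleGraph.Subgraph.deleteEdges_adj]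
    refine ⟨hxy, ?_⟩
    intro hm
    rw [Set.mem_singleton_iff, Sym2.eq_iff] at hm
    exact hcon hm
  exact C.valid h3 hc

lemma critical_of_oneConf {V : Type} {k : ℕ} {G : SimpleGraph V} (h1 : ¬ G.Colorable k)
    (h2 : ∀ a b, G.Adj a b → OneConf k G a b) (h3 : ∀ v, ∃ w, G.Adj v w) [Nonempty V] :
    IsCritical (k + 1) G := by
  classical
  constructor
  · rw [Nat.cast_add, Nat.cast_one, SimpleGraph.chromaticNumber_eq_iff_colorable_not_colorable]
    refine ⟨?_, h1⟩
    obtain ⟨a⟩ := ‹Nonempty V›
    obtain ⟨b, hab⟩ := h3 a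
    obtain ⟨c, hc⟩ := h2 a b hab
    refine ⟨SimpleGraph.Coloring.mk (fun v => if v = a then Fin.last k else (c v).castSucc) ?_⟩
    intro x y hxy
    have hne := hxy.ne
    by_cases hx : x = a
    · have hy : y ≠ a := fun h => hne (hx.trans h.symm)
      simp only [if_pos hx, if_neg hy]
      exact (Fin.castSucc_lt_last _).ne'
    · by_cases hy : y = a
      · simp only [if_neg hx, if_pos hy]
        exact (Fin.castSucc_lt_last _).ne
      · simp only [if_neg hx, if_neg hy]
        intro h
        rcases hc x y hxy (Fin.castSucc_injective _ h) with h4 | h4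
        · exact hx h4.1
        · exact hy h4.2
  · intro H hH
    obtain ⟨a, b, hab, hn⟩ : ∃ a b, G.Adj a b ∧ ¬ H.Adj a b := by
      by_contra hcon
      push Not at hcon
      apply hH
      apply SimpleGraph.Subgraph.ext
      · ext v
        obtain ⟨w, hw⟩ := h3 v
        simp only [SimpleGraph.Subgraph.verts_top, Set.mem_univ, iff_true]
        exact H.edge_vert (hcon v w hw)
      · funext x y
        apply propext
        rw [SimpleGraph.Subgraph.top_adj]
        exact ⟨fun h => H.adj_sub h, fun h => hcon x y h⟩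
    obtain ⟨c, hc⟩ := h2 a b hab
    have hcol : H.coe.Colorable k := by
      refine ⟨SimpleGraph.Coloring.mk (fun v => c v.1) ?_⟩
      rintro ⟨x, hx⟩ ⟨y, hy⟩ hxy h
      rw [SimpleGraph.Subgraph.coe_adj] at hxy
      rcases hc x y (H.adj_sub hxy) h with ⟨h4, h5⟩ | ⟨h4, h5⟩
      · subst h4; subst h5; exact hn hxy
      · subst h4; subst h5; exact hn hxy.symm
    refine lt_of_le_of_lt hcol.chromaticNumber_le ?_
    exact_mod_cast Nat.lt_succ_self k

/-- the working form of criticality -/
def Crit (k : ℕ) {V : Type} (G : SimpleGraph V) : Prop :=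
  ¬ G.Colorable k ∧ (∀ a b, G.Adj a b → OneConf k G a b) ∧ (∀ v, ∃ w, G.Adj v w) ∧ Nonempty V

lemma Crit.isCritical {k : ℕ} {V : Type} {G : SimpleGraph V} (h : Crit k G) :
    IsCritical (k + 1) G := by
  have := h.2.2.2
  exact critical_of_oneConf h.1 h.2.1 h.2.2.1

/-! ### 4-critical graphs -/

open Pool.Agent.Helper635.Crit in
lemma bound4 {n : ℕ} (G : SimpleGraph (Fin n)) {c : ℝ} (hc : 0 < c) (h4 : IsCritical 4 G)
    (hdeg : MinDegreeGe G c) (hn : 0 < n) : c * n ≤ 24 / c * 16 ^ (⌈24 / c⌉₊) := by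
  classical
  have hn' : (0 : ℝ) < n := by exact_mod_cast hn
  have hnot : ¬ G.Colorable 3 := by
    intro h
    have h1 := h.chromaticNumber_le
    rw [h4.1] at h1
    exact absurd h1 (by decide)
  have hG : ∀ ψ : Fin n → Fin 3, ∃ w w', G.Adj w w' ∧ ψ w = ψ w' := by
    intro ψ
    by_contra hcon
    push Not at hcon
    exact hnot ⟨SimpleGraph.Coloring.mk ψ (fun {a b} hab => hcon a b hab)⟩
  set v : Fin n := ⟨0, hn⟩ with hv
  set S : Finset (Fin n) := Finset.univ.filter (fun x => G.Adj v x) with hS
  have hex : ∀ x : Fin n, ∃ f : Fin n → Fin 3, x ∈ S → f v = 0 ∧ f x = 0 ∧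
      ∀ w w', G.Adj w w' → f w = f w' → (w = v ∧ w' = x) ∨ (w = x ∧ w' = v) := by
    intro x
    by_cases hx : x ∈ S
    · have hadj : G.Adj v x := by simpa [hS] using hx
      obtain ⟨C, hprop⟩ := oneConf_of_critical h4 hadj
      have hvx : C v = C x := by
        obtain ⟨w, w', hww', heq⟩ := hG C
        rcases hprop w w' hww' heq with ⟨e1, e2⟩ | ⟨e1, e2⟩
        · rw [e1, e2] at heq
          exact heq
        · rw [e1, e2] at heq
          exact heq.symm
      refine ⟨fun w => Equiv.swap (C v) 0 (C w), fun _ => ⟨?_, ?_, ?_⟩⟩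
      · simp
      · simp [← hvx]
      · intro w w' hww' heq
        exact hprop w w' hww' ((Equiv.swap (C v) 0).injective heq)
    · exact ⟨fun _ => 0, fun h => absurd h hx⟩
  choose φ hφ using hex
  have hfam : Fam G φ S v := by
    refine ⟨fun x hx => (hφ x hx).1, fun x hx => (hφ x hx).2.1, ?_, fun x hx => (hφ x hx).2.2⟩
    intro x hx
    simpa [hS] using hx
  have hSc : (S.card : ℝ) = Nat.card (G.neighborSet v) := by
    rw [hS, Nat.card_eq_fintype_card]
    congr 1
    rw [← Set.toFinset_card]
    congr 1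
    ext z
    simp
  have hSn : (S.card : ℝ) ≤ n := by
    have := Finset.card_le_univ S
    rw [Fintype.card_fin] at this
    exact_mod_cast this
  have hc1 : c ≤ 1 := by
    have h1 := hdeg v
    rw [← hSc] at h1
    by_contra hlt
    rw [not_le] at hlt
    nlinarith
  have hb := main_bound hfam hG hc hc1
    (fun w => by rw [Fintype.card_fin]; exact hdeg w) (⌈24 / c⌉₊) (Nat.le_ceil _)
  have h1 := hdeg v
  rw [← hSc] at h1
  linarith

/-! ### 5-critical graphs -/

open Pool.Agent.H889R2.Crit5 in
lemma exists5 (m : ℕ) (hm : 0 < m) :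
    ∃ G : SimpleGraph (Fin (18 * m + 7)), Crit 4 G ∧ MinDegreeGe G (1 / 18) := by
  classical
  have hL1 : 1 < 6 * m + 3 := by omega
  have hL : Odd (6 * m + 3) := ⟨3 * m + 1, by ring⟩
  set G0 := K (X m) hL1 with hG0
  set e := G0.overFinIso (card_fam m) with he
  refine ⟨G0.overFin (card_fam m), ?_, ?_⟩
  · refine ⟨?_, ?_, ?_, ⟨⟨0, by omega⟩⟩⟩
    · rintro hcol
      obtain ⟨C⟩ := hcol
      exact not_colorable (X m) hL1 hL (H1 hm) (H2 hm) ⟨C.comp e.toHom⟩
    · intro a b hab
      have hab' : Ad (X m) (e.symm a) (e.symm b) := e.symm.map_adj_iff.2 hab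
      obtain ⟨c, hc⟩ := crit (X m) hL1 hL (H2 hm) H3 _ _ hab'
      refine ⟨fun v => c (e.symm v), fun x y hxy h => ?_⟩
      have hxy' : Ad (X m) (e.symm x) (e.symm y) := e.symm.map_adj_iff.2 hxy
      rcases hc _ _ hxy' h with ⟨h1, h2⟩ | ⟨h1, h2⟩
      · exact Or.inl ⟨e.symm.injective h1, e.symm.injective h2⟩
      · exact Or.inr ⟨e.symm.injective h1, e.symm.injective h2⟩
    · intro v
      obtain ⟨g, -, hg⟩ := degree_ge (m := m) (e.symm v)
      refine ⟨e (g none), ?_⟩
      have h1 : G0.Adj (e.symm v) (g none) := hg none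
      have h2 := e.map_adj_iff.2 h1
      rwa [RelIso.apply_symm_apply] at h2
  · intro v
    obtain ⟨g, hgi, hg⟩ := degree_ge (m := m) (e.symm v)
    have h1 : ∀ x, (G0.overFin (card_fam m)).Adj v (e (g x)) := by
      intro x
      have h1 : G0.Adj (e.symm v) (g x) := hg x
      have h2 := e.map_adj_iff.2 h1
      rwa [RelIso.apply_symm_apply] at h2
    have h2 : Nat.card (Option (Fin m)) ≤ Nat.card ((G0.overFin (card_fam m)).neighborSet v) := by
      apply Nat.card_le_card_of_injective (fun x => ⟨e (g x), h1 x⟩)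
      intro x y hxy
      exact hgi (e.injective (congrArg Subtype.val hxy))
    have h3 : Nat.card (Option (Fin m)) = m + 1 := by simp
    rw [h3] at h2
    have h4 : ((m : ℝ) + 1) ≤ Nat.card ((G0.overFin (card_fam m)).neighborSet v) := by
      exact_mod_cast h2
    push_cast
    linarith

/-! ### adding a dominating vertex -/

/-- `G` with a new vertex joined to all the old ones -/
def cone {n : ℕ} (G : SimpleGraph (Fin n)) : SimpleGraph (Fin (n + 1)) where
  Adj x y := (x = 0 ∧ y ≠ 0) ∨ (x ≠ 0 ∧ y = 0) ∨ ∃ a b, x = Fin.succ a ∧ y = Fin.succ b ∧ G.Adj a b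
  symm := ⟨by
    rintro x y (⟨h1, h2⟩ | ⟨h1, h2⟩ | ⟨a, b, h1, h2, h3⟩)
    · exact Or.inr (Or.inl ⟨h2, h1⟩)
    · exact Or.inl ⟨h2, h1⟩
    · exact Or.inr (Or.inr ⟨b, a, h2, h1, h3.symm⟩)⟩
  loopless := ⟨by
    rintro x (⟨h1, h2⟩ | ⟨h1, h2⟩ | ⟨a, b, h1, h2, h3⟩)
    · exact h2 h1
    · exact h1 h2
    · have : a = b := Fin.succ_injective _ (h1.symm.trans h2)
      subst this
      exact G.loopless.irrefl a h3⟩

lemma cone_zero {n : ℕ} (G : SimpleGraph (Fin n)) (a : Fin n) : (cone G).Adj 0 a.succ :=
  Or.inl ⟨rfl, Fin.succ_ne_zero a⟩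

lemma cone_succ {n : ℕ} {G : SimpleGraph (Fin n)} {a b : Fin n} (h : G.Adj a b) :
    (cone G).Adj a.succ b.succ := Or.inr (Or.inr ⟨a, b, rfl, rfl, h⟩)

lemma cone_succ_iff {n : ℕ} {G : SimpleGraph (Fin n)} {a b : Fin n} :
    (cone G).Adj a.succ b.succ ↔ G.Adj a b := by
  constructor
  · rintro (⟨h1, h2⟩ | ⟨h1, h2⟩ | ⟨c, d, h1, h2, h3⟩)
    · exact absurd h1 (Fin.succ_ne_zero a)
    · exact absurd h2 (Fin.succ_ne_zero b)
    · rw [Fin.succ_injective _ h1, Fin.succ_injective _ h2]; exact h3
  · exact cone_succ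

lemma crit_cone {n k : ℕ} {G : SimpleGraph (Fin n)} (h : Crit k G) : Crit (k + 1) (cone G) := by
  classical
  obtain ⟨h1, h2, h3, ⟨v0⟩⟩ := h
  -- an extension of a colouring of `G`
  have ext : ∀ (c : Fin n → Fin (k + 1)) (x y : Fin (n + 1)), (cone G).Adj x y →
      (Fin.cons (Fin.last k) c : Fin (n + 1) → Fin (k + 1)) x =
        (Fin.cons (Fin.last k) c : Fin (n + 1) → Fin (k + 1)) y →
      (∃ a b, x = Fin.succ a ∧ y = Fin.succ b ∧ G.Adj a b ∧ c a = c b) ∨
      (∃ a, x = 0 ∧ y = Fin.succ a ∧ c a = Fin.last k) ∨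
      (∃ a, x = Fin.succ a ∧ y = 0 ∧ c a = Fin.last k) := by
    intro c x y hxy hc
    refine Fin.cases ?_ (fun a => ?_) x (motive := fun x => (cone G).Adj x y →
      (Fin.cons (Fin.last k) c : Fin (n + 1) → Fin (k + 1)) x =
        (Fin.cons (Fin.last k) c : Fin (n + 1) → Fin (k + 1)) y →
      (∃ a b, x = Fin.succ a ∧ y = Fin.succ b ∧ G.Adj a b ∧ c a = c b) ∨
      (∃ a, x = 0 ∧ y = Fin.succ a ∧ c a = Fin.last k) ∨
      (∃ a, x = Fin.succ a ∧ y = 0 ∧ c a = Fin.last k)) hxy hc
    · intro hxy hc
      rcases Fin.eq_zero_or_eq_succ y with rfl | ⟨b, rfl⟩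
      · exact absurd rfl hxy.ne
      · rw [Fin.cons_zero, Fin.cons_succ] at hc
        exact Or.inr (Or.inl ⟨b, rfl, rfl, hc.symm⟩)
    · intro hxy hc
      rcases Fin.eq_zero_or_eq_succ y with rfl | ⟨b, rfl⟩
      · rw [Fin.cons_zero, Fin.cons_succ] at hc
        exact Or.inr (Or.inr ⟨a, rfl, rfl, hc⟩)
      · rw [Fin.cons_succ, Fin.cons_succ] at hc
        exact Or.inl ⟨a, b, rfl, rfl, cone_succ_iff.1 hxy, hc⟩
  refine ⟨?_, ?_, ?_, ⟨0⟩⟩
  · rintro ⟨C⟩
    apply h1
    have hne : ∀ v : Fin n, C v.succ ≠ C 0 := fun v => C.valid (cone_zero G v).symm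
    have hcard : Fintype.card {c : Fin (k + 1) // c ≠ C 0} = k := by
      rw [Fintype.card_subtype_compl, Fintype.card_fin, Fintype.card_subtype_eq]
      simp
    have hcol : G.Coloring {c : Fin (k + 1) // c ≠ C 0} :=
      SimpleGraph.Coloring.mk (fun v => ⟨C v.succ, hne v⟩) (by
        intro a b hab h
        exact C.valid (cone_succ hab) (congrArg Subtype.val h))
    have := hcol.colorable
    rwa [hcard] at this
  · have key0 : ∀ v : Fin n, OneConf (k + 1) (cone G) 0 v.succ := by
      intro v
      obtain ⟨w, hvw⟩ := h3 v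
      obtain ⟨c, hc⟩ := h2 v w hvw
      refine ⟨Fin.cons (Fin.last k) (fun x => if x = v then Fin.last k else (c x).castSucc), ?_⟩
      intro x y hxy hcol
      have hlast : ∀ a, (fun x => if x = v then Fin.last k else (c x).castSucc) a = Fin.last k →
          a = v := by
        intro a ha
        by_contra hne
        simp only [if_neg hne] at ha
        exact (Fin.castSucc_lt_last _).ne ha
      rcases ext _ x y hxy hcol with ⟨a, b, rfl, rfl, hab, he⟩ | ⟨a, rfl, rfl, he⟩ |
        ⟨a, rfl, rfl, he⟩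
      · exfalso
        by_cases ha : a = v
        · have hb : b ≠ v := fun h => hab.ne (ha.trans h.symm)
          simp only [if_pos ha, if_neg hb] at he
          exact (Fin.castSucc_lt_last _).ne he.symm
        · by_cases hb : b = v
          · simp only [if_neg ha, if_pos hb] at he
            exact (Fin.castSucc_lt_last _).ne he
          · simp only [if_neg ha, if_neg hb] at he
            rcases hc a b hab (Fin.castSucc_injective _ he) with h4 | h4
            · exact ha h4.1
            · exact hb h4.2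
      · rw [hlast a he]; exact Or.inl ⟨rfl, rfl⟩
      · rw [hlast a he]; exact Or.inr ⟨rfl, rfl⟩
    intro x y hxy
    rcases Fin.eq_zero_or_eq_succ x with rfl | ⟨a, rfl⟩
    · rcases Fin.eq_zero_or_eq_succ y with rfl | ⟨b, rfl⟩
      · exact absurd rfl hxy.ne
      · exact key0 b
    · rcases Fin.eq_zero_or_eq_succ y with rfl | ⟨b, rfl⟩
      · obtain ⟨c, hc⟩ := key0 a
        exact ⟨c, fun x y h1 h2 => (hc x y h1 h2).symm⟩
      · obtain ⟨c, hc⟩ := h2 a b (cone_succ_iff.1 hxy)
        refine ⟨Fin.cons (Fin.last k) (fun x => (c x).castSucc), ?_⟩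
        intro x y hxy hcol
        rcases ext _ x y hxy hcol with ⟨a', b', rfl, rfl, hab', he⟩ | ⟨a', rfl, rfl, he⟩ |
          ⟨a', rfl, rfl, he⟩
        · rcases hc a' b' hab' (Fin.castSucc_injective _ he) with ⟨rfl, rfl⟩ | ⟨rfl, rfl⟩
          · exact Or.inl ⟨rfl, rfl⟩
          · exact Or.inr ⟨rfl, rfl⟩
        · exact absurd he (Fin.castSucc_lt_last _).ne
        · exact absurd he (Fin.castSucc_lt_last _).ne
  · intro x
    rcases Fin.eq_zero_or_eq_succ x with rfl | ⟨a, rfl⟩
    · exact ⟨v0.succ, cone_zero G v0⟩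
    · exact ⟨0, (cone_zero G a).symm⟩

lemma minDegree_cone {n : ℕ} {G : SimpleGraph (Fin n)} {c : ℝ} (hn : 0 < n)
    (h : MinDegreeGe G c) : MinDegreeGe (cone G) (min c (1 / 2)) := by
  classical
  have hn1 : (1 : ℝ) ≤ n := by exact_mod_cast hn
  have hc1 : min c (1 / 2) ≤ c := min_le_left _ _
  have hc2 : min c (1 / 2) ≤ 1 / 2 := min_le_right _ _
  intro x
  rcases Fin.eq_zero_or_eq_succ x with rfl | ⟨a, rfl⟩
  · have h1 : Nat.card (Fin n) ≤ Nat.card ((cone G).neighborSet 0) := by
      apply Nat.card_le_card_of_injective (fun a : Fin n => ⟨a.succ, cone_zero G a⟩)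
      intro a b hab
      exact Fin.succ_injective _ (congrArg Subtype.val hab)
    rw [Nat.card_eq_fintype_card, Fintype.card_fin] at h1
    have h2 : (n : ℝ) ≤ Nat.card ((cone G).neighborSet 0) := by exact_mod_cast h1
    push_cast
    nlinarith
  · have h1 : Nat.card (Option (G.neighborSet a)) ≤ Nat.card ((cone G).neighborSet a.succ) := by
      apply Nat.card_le_card_of_injective (fun b : Option (G.neighborSet a) =>
        match b with
        | none => ⟨0, (cone_zero G a).symm⟩
        | some b => ⟨b.1.succ, cone_succ b.2⟩)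
      intro b b' hbb
      cases b with
      | none =>
        cases b' with
        | none => rfl
        | some b' => exact absurd (congrArg Subtype.val hbb) (Fin.succ_ne_zero _).symm
      | some b =>
        cases b' with
        | none => exact absurd (congrArg Subtype.val hbb) (Fin.succ_ne_zero _)
        | some b' =>
          have := Fin.succ_injective _ (congrArg Subtype.val hbb)
          rw [Subtype.ext this]
    rw [Finite.card_option] at h1
    have h2 : (Nat.card (G.neighborSet a) : ℝ) + 1 ≤ Nat.card ((cone G).neighborSet a.succ) := by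
      exact_mod_cast h1
    have h3 := h a
    push_cast
    nlinarith

/-! ### small `k` -/

lemma degree_small {n k : ℕ} {G : SimpleGraph (Fin n)} (hk : k ≤ 2)
    (hnot : ¬ G.Colorable k) (h : ∀ a b, G.Adj a b → OneConf k G a b) (v : Fin n) :
    Nat.card (G.neighborSet v) ≤ 2 := by
  classical
  by_contra hlt
  push Not at hlt
  rw [Nat.card_eq_fintype_card, Fintype.two_lt_card_iff] at hlt
  obtain ⟨⟨a, ha⟩, ⟨b, hb⟩, ⟨d, hd⟩, hab, had, hbd⟩ := hlt
  have hab' : a ≠ b := fun h => hab (Subtype.ext h)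
  have had' : a ≠ d := fun h => had (Subtype.ext h)
  have hbd' : b ≠ d := fun h => hbd (Subtype.ext h)
  -- colourings with two colours, `v` getting colour 0
  have key : ∀ x, G.Adj v x → ∃ c : Fin n → Bool, c v = false ∧ c x = false ∧
      ∀ y z, G.Adj y z → c y = c z → (y = v ∧ z = x) ∨ (y = x ∧ z = v) := by
    intro x hx
    obtain ⟨c, hc⟩ := h v x hx
    have hcvx : c v = c x := by
      by_contra hne
      apply hnot
      refine ⟨SimpleGraph.Coloring.mk c ?_⟩
      intro y z hyz he
      rcases hc y z hyz he with ⟨rfl, rfl⟩ | ⟨rfl, rfl⟩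
      · exact hne he
      · exact hne he.symm
    refine ⟨fun y => decide (c y ≠ c v), by simp, by simp [hcvx], ?_⟩
    intro y z hyz he
    apply hc y z hyz
    have hval : ∀ y z : Fin n, (c y ≠ c v) → (c z ≠ c v) → c y = c z := by
      intro y z h1 h2
      have e1 : (c y).val < k := (c y).2
      have e2 : (c z).val < k := (c z).2
      have e3 : (c v).val < k := (c v).2
      have e4 : (c y).val ≠ (c v).val := fun h => h1 (Fin.ext h)
      have e5 : (c z).val ≠ (c v).val := fun h => h2 (Fin.ext h)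
      exact Fin.ext (by omega)
    simp only [decide_eq_decide] at he
    by_cases hy : c y = c v
    · have : c z = c v := by
        by_contra hz
        exact (he.2 hz) hy
      rw [hy, this]
    · exact hval y z hy (he.1 hy)
  obtain ⟨c1, p1, q1, r1⟩ := key a ha
  obtain ⟨c2, p2, q2, r2⟩ := key b hb
  obtain ⟨c3, p3, q3, r3⟩ := key d hd
  -- the majority colouring is proper
  have maj : ∀ y z, G.Adj y z →
      ((c1 y && c2 y) || (c1 y && c3 y) || (c2 y && c3 y)) ≠
      ((c1 z && c2 z) || (c1 z && c3 z) || (c2 z && c3 z)) := by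
    have base : ∀ x1 x2 x3 : Bool, ((x1 && x2) || (x1 && x3) || (x2 && x3)) ≠
        ((!x1 && !x2) || (!x1 && !x3) || (!x2 && !x3)) := by decide
    have neq : ∀ x y : Bool, x ≠ y → y = !x := by decide
    -- values of the colourings at the neighbours of `v`
    have g1 : ∀ z, G.Adj v z → z ≠ a → c1 z = true := by
      intro z hz hza
      by_contra hf
      rw [Bool.not_eq_true] at hf
      rcases r1 v z hz (p1.trans hf.symm) with h4 | h4
      · exact hza h4.2
      · exact hz.ne h4.2.symm
    have g2 : ∀ z, G.Adj v z → z ≠ b → c2 z = true := by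
      intro z hz hza
      by_contra hf
      rw [Bool.not_eq_true] at hf
      rcases r2 v z hz (p2.trans hf.symm) with h4 | h4
      · exact hza h4.2
      · exact hz.ne h4.2.symm
    have g3 : ∀ z, G.Adj v z → z ≠ d → c3 z = true := by
      intro z hz hza
      by_contra hf
      rw [Bool.not_eq_true] at hf
      rcases r3 v z hz (p3.trans hf.symm) with h4 | h4
      · exact hza h4.2
      · exact hz.ne h4.2.symm
    have hv : ∀ z, G.Adj v z → ((c1 z && c2 z) || (c1 z && c3 z) || (c2 z && c3 z)) = true := by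
      intro z hz
      by_cases h1 : z = a
      · have h2 : z ≠ b := fun h => hab' (h1.symm.trans h)
        have h3 : z ≠ d := fun h => had' (h1.symm.trans h)
        simp [g2 z hz h2, g3 z hz h3]
      · by_cases h2 : z = b
        · have h3 : z ≠ d := fun h => hbd' (h2.symm.trans h)
          simp [g1 z hz h1, g3 z hz h3]
        · simp [g1 z hz h1, g2 z hz h2]
    intro y z hyz
    by_cases hy : y = v
    · subst hy
      rw [hv z hyz]
      simp [p1, p2, p3]
    · by_cases hz : z = v
      · subst hz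
        rw [hv y hyz.symm]
        simp [p1, p2, p3]
      · have e1 : c1 z = !c1 y := neq _ _ (fun he => by
          rcases r1 y z hyz he with h4 | h4
          · exact hy h4.1
          · exact hz h4.2)
        have e2 : c2 z = !c2 y := neq _ _ (fun he => by
          rcases r2 y z hyz he with h4 | h4
          · exact hy h4.1
          · exact hz h4.2)
        have e3 : c3 z = !c3 y := neq _ _ (fun he => by
          rcases r3 y z hyz he with h4 | h4
          · exact hy h4.1
          · exact hz h4.2)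
        rw [e1, e2, e3]
        exact base _ _ _
  -- hence `G` is 2-colourable, and `k = 2`
  have hcol2 : G.Colorable 2 := by
    have := (SimpleGraph.Coloring.mk (G := G) (fun y =>
      ((c1 y && c2 y) || (c1 y && c3 y) || (c2 y && c3 y))) (fun {y z} hyz => maj y z hyz)).colorable
    simpa using this
  rcases Nat.lt_or_ge k 2 with hk2 | hk2
  · -- one colour: two edges at `v` would both be conflicts
    obtain ⟨c, hc⟩ := h v a ha
    have e1 : (c v).val < k := (c v).2
    have e2 : (c b).val < k := (c b).2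
    have : c v = c b := Fin.ext (by omega)
    rcases hc v b hb this with h4 | h4
    · exact hab' h4.2.symm
    · exact (G.ne_of_adj ha) h4.1
  · have : k = 2 := le_antisymm hk hk2
    subst this
    exact hnot hcol2

/-- For `k ∈ ℕ`: there are `c > 0` and infinitely many `n` such that some `k`-critical graph `G` on
`n` vertices has `δ(G) ≥ c n` if and only if `k ≥ 5`. -/
theorem result (k : ℕ) :
    (∃ c : ℝ, 0 < c ∧
      {n : ℕ | ∃ G : SimpleGraph (Fin n), IsCritical k G ∧ MinDegreeGe G c}.Infinite) ↔ 5 ≤ k := by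
  constructor
  · rintro ⟨c, hc, hinf⟩
    by_contra hlt
    rw [not_le] at hlt
    apply hinf
    obtain rfl | hk := Nat.eq_zero_or_pos k
    · apply Set.Finite.subset (Set.finite_Iic 0)
      rintro n ⟨G, h0, -⟩
      rw [Set.mem_Iic]
      by_contra hn
      have h1 : G.Colorable 0 := by
        rw [← SimpleGraph.chromaticNumber_le_iff_colorable]
        exact le_of_eq h0.1
      obtain ⟨C⟩ := h1
      exact (C ⟨0, by omega⟩).elim0
    · by_cases h4 : k = 4
      · subst h4
        apply Set.Finite.subset (Set.finite_Iic (⌊24 / c * 16 ^ (⌈24 / c⌉₊) / c⌋₊))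
        rintro n ⟨G, h4, hdeg⟩
        rw [Set.mem_Iic]
        rcases Nat.eq_zero_or_pos n with hn | hn
        · rw [hn]; exact Nat.zero_le _
        · apply Nat.le_floor
          rw [le_div_iff₀ hc, mul_comm]
          exact bound4 G hc h4 hdeg hn
      · obtain ⟨k, rfl⟩ : ∃ k', k = k' + 1 := ⟨k - 1, by omega⟩
        apply Set.Finite.subset (Set.finite_Iic ⌊2 / c⌋₊)
        rintro n ⟨G, hG, hdeg⟩
        rw [Set.mem_Iic]
        rcases Nat.eq_zero_or_pos n with hn | hn
        · rw [hn]; exact Nat.zero_le _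
        · apply Nat.le_floor
          rw [le_div_iff₀ hc, mul_comm]
          have hnot : ¬ G.Colorable k := by
            have := hG.1
            rw [Nat.cast_add, Nat.cast_one,
              SimpleGraph.chromaticNumber_eq_iff_colorable_not_colorable] at this
            exact this.2
          have h1 := degree_small (k := k) (by omega) hnot (fun a b => oneConf_of_critical hG)
            ⟨0, hn⟩
          have h2 : (Nat.card (G.neighborSet ⟨0, hn⟩) : ℝ) ≤ 2 := by exact_mod_cast h1
          exact (hdeg ⟨0, hn⟩).trans h2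
  · intro hk
    obtain ⟨j, rfl⟩ := Nat.exists_eq_add_of_le hk
    suffices h : ∃ c : ℝ, 0 < c ∧
        {n : ℕ | ∃ G : SimpleGraph (Fin n), Crit (4 + j) G ∧ MinDegreeGe G c}.Infinite by
      obtain ⟨c, hc, hinf⟩ := h
      refine ⟨c, hc, hinf.mono ?_⟩
      rintro n ⟨G, h1, h2⟩
      have h3 := h1.isCritical
      have e : 4 + j + 1 = 5 + j := by omega
      rw [e] at h3
      exact ⟨G, h3, h2⟩
    induction j with
    | zero =>
      refine ⟨1 / 18, by norm_num, ?_⟩
      apply Set.infinite_of_injective_forall_mem (f := fun m : ℕ => 18 * (m + 1) + 7)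
      · intro a b h
        simp only at h
        omega
      · intro m
        exact exists5 (m + 1) (Nat.succ_pos m)
    | succ j ih =>
      obtain ⟨c, hc, hinf⟩ := ih (by omega)
      refine ⟨min c (1 / 2), lt_min hc (by norm_num), ?_⟩
      have himg := hinf.image (f := fun n => n + 1) (fun a _ b _ h => Nat.succ_injective h)
      refine himg.mono ?_
      rintro _ ⟨n, ⟨G, h1, h2⟩, rfl⟩
      have hn : 0 < n := by
        obtain ⟨v⟩ := h1.2.2.2
        exact lt_of_le_of_lt (Nat.zero_le _) v.2
      exact ⟨cone G, crit_cone h1, minDegree_cone hn h2⟩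

end Pool.Agent.Results.MP_1f8788_co.LinearMinDegree
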